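import Pool.Agent.Y290.PL.Stm

/-!
# Project PL, part FB: the positive and negative frequency parts of smooth functions
-/

set_option autoImplicit false

namespace Pool.Agent.Y252.PL.FB

open MeasureTheory Set Pool.Agent.Y290.PL
open scoped FourierTransform ENNReal ContDiff

lemma norm_ex (x ξ : ℝ) : ‖ex x ξ‖ = 1 := by
  unfold ex
  exact Complex.norm_exp_ofReal_mul_I _

lemma cont_ex (x : ℝ) : Continuous (fun ξ => ex x ξ) := by
  unfold ex
  fun_prop

lemma inv_eq (a : ℝ → ℂ) (x : ℝ) : ∫ ξ, a ξ * ex x ξ = 𝓕⁻ a x := by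
  rw [Real.fourierInv_eq']
  refine integral_congr_ae (Filter.Eventually.of_forall fun ξ => ?_)
  simp only [ex, smul_eq_mul, RCLike.inner_apply, conj_trivial]
  rw [mul_comm]
  congr 3
  push_cast
  ring

lemma hcs {F : ℝ → ℂ} (hF : S01 F) : HasCompactSupport F := by
  refine HasCompactSupport.of_support_subset_isCompact (isCompact_Icc (a := (0:ℝ)) (b := 1)) ?_
  intro x hx
  by_contra h
  exact hx (hF.o x h)

/-- all moments of the Fourier transform are integrable -/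
lemma mom {F : ℝ → ℂ} (hF : S01 F) (n : ℕ) :
    Integrable (fun ξ : ℝ => ‖ξ‖ ^ n * ‖𝓕 F ξ‖) := by
  have := (𝓕 ((hcs hF).toSchwartzMap hF.s)).integrable_pow_mul volume n
  rw [SchwartzMap.fourier_coe] at this
  exact this

lemma intF {F : ℝ → ℂ} (hF : S01 F) : Integrable (𝓕 F) := by
  have := (𝓕 ((hcs hF).toSchwartzMap hF.s)).integrable (μ := volume)
  rw [SchwartzMap.fourier_coe] at this
  exact this

lemma intF0 {F : ℝ → ℂ} (hF : S01 F) : Integrable F :=
  hF.s.continuous.integrable_of_hasCompactSupport (hcs hF)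

lemma smooth_part {F : ℝ → ℂ} (hF : S01 F) {s : Set ℝ} (hs : MeasurableSet s) :
    ContDiff ℝ ∞ (𝓕⁻ (s.indicator (𝓕 F))) := by
  have h1 : ContDiff ℝ ∞ (𝓕 (s.indicator (𝓕 F))) := by
    refine Real.contDiff_fourier (N := ⊤) ?_
    intro n _
    refine (mom hF n).mono' ?_ ?_
    · exact (Continuous.aestronglyMeasurable (by fun_prop)).mul
        (((intF hF).1.indicator hs).norm)
    · refine Filter.Eventually.of_forall fun ξ => ?_
      rw [Real.norm_of_nonneg (by positivity)]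
      refine mul_le_mul_of_nonneg_left ?_ (by positivity)
      exact norm_indicator_le_norm_self _ _
  have h2 : (𝓕⁻ (s.indicator (𝓕 F))) = fun x => 𝓕 (s.indicator (𝓕 F)) (-x) := by
    funext x
    exact Real.fourierInv_eq_fourier_neg _ _
  rw [h2]
  exact h1.comp contDiff_neg

lemma part_eq (F : ℝ → ℂ) {s : Set ℝ} (hs : MeasurableSet s) (x : ℝ) :
    ∫ ξ in s, 𝓕 F ξ * ex x ξ = ∫ ξ, s.indicator (𝓕 F) ξ * ex x ξ := by
  rw [← integral_indicator hs]
  refine integral_congr_ae (Filter.Eventually.of_forall fun ξ => ?_)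
  by_cases h : ξ ∈ s <;> simp [h]

lemma part_norm (F : ℝ → ℂ) {s : Set ℝ} (hs : MeasurableSet s) :
    ∫ ξ, ‖s.indicator (𝓕 F) ξ‖ = ∫ ξ in s, ‖𝓕 F ξ‖ := by
  rw [← integral_indicator hs]
  refine integral_congr_ae (Filter.Eventually.of_forall fun ξ => ?_)
  by_cases h : ξ ∈ s <;> simp [h]

lemma part_bd (F : ℝ → ℂ) (s : Set ℝ) (x : ℝ) :
    ‖∫ ξ in s, 𝓕 F ξ * ex x ξ‖ ≤ ∫ ξ in s, ‖𝓕 F ξ‖ := by
  refine (norm_integral_le_integral_norm _).trans (le_of_eq ?_)
  refine integral_congr_ae (Filter.Eventually.of_forall fun ξ => ?_)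
  simp [norm_ex]

lemma part_smooth {F : ℝ → ℂ} (hF : S01 F) {s : Set ℝ} (hs : MeasurableSet s) :
    ContDiff ℝ ∞ (fun x => ∫ ξ in s, 𝓕 F ξ * ex x ξ) := by
  have : (fun x => ∫ ξ in s, 𝓕 F ξ * ex x ξ) = 𝓕⁻ (s.indicator (𝓕 F)) := by
    funext x
    rw [part_eq F hs, inv_eq]
  rw [this]
  exact smooth_part hF hs

lemma int_ex {F : ℝ → ℂ} (hF : S01 F) (x : ℝ) : Integrable (fun ξ => 𝓕 F ξ * ex x ξ) := by
  refine (intF hF).mono ((intF hF).1.mul (cont_ex x).aestronglyMeasurable) ?_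
  refine Filter.Eventually.of_forall fun ξ => ?_
  simp [norm_ex]

lemma inversion {F : ℝ → ℂ} (hF : S01 F) (x : ℝ) : F x = ∫ ξ, 𝓕 F ξ * ex x ξ := by
  rw [inv_eq, Continuous.fourierInv_fourier_eq hF.s.continuous (intF0 hF) (intF hF)]

lemma four_add {F G : ℝ → ℂ} (hF : S01 F) (hG : S01 G) (ξ : ℝ) :
    𝓕 (fun y => F y + G y) ξ = 𝓕 F ξ + 𝓕 G ξ := by
  rw [Real.fourier_eq, Real.fourier_eq, Real.fourier_eq]
  simp_rw [smul_add]
  exact integral_add ((Real.fourierIntegral_convergent_iff _).mpr (intF0 hF))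
    ((Real.fourierIntegral_convergent_iff _).mpr (intF0 hG))

lemma part_add {F G : ℝ → ℂ} (hF : S01 F) (hG : S01 G) (s : Set ℝ) (x : ℝ) :
    ∫ ξ in s, 𝓕 (fun y => F y + G y) ξ * ex x ξ =
      (∫ ξ in s, 𝓕 F ξ * ex x ξ) + ∫ ξ in s, 𝓕 G ξ * ex x ξ := by
  simp_rw [four_add hF hG, add_mul]
  exact integral_add (int_ex hF x).integrableOn (int_ex hG x).integrableOn

lemma part_tri {F G : ℝ → ℂ} (hF : S01 F) (hG : S01 G) (s : Set ℝ) :
    ∫ ξ in s, ‖𝓕 (fun y => F y + G y) ξ‖ ≤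
      (∫ ξ in s, ‖𝓕 F ξ‖) + ∫ ξ in s, ‖𝓕 G ξ‖ := by
  simp_rw [four_add hF hG]
  rw [← integral_add (intF hF).norm.integrableOn (intF hG).norm.integrableOn]
  refine integral_mono ?_ ?_ ?_
  · exact ((intF hF).add (intF hG)).norm.integrableOn
  · exact ((intF hF).norm.add (intF hG).norm).integrableOn
  · intro ξ
    exact norm_add_le _ _

theorem t_FB : S_FB := by
  refine ⟨fun F hF => ⟨intF hF, ?_, ?_, ?_, ?_, ?_, ?_, ?_⟩, fun F G hF hG => ⟨?_, ?_, ?_, ?_⟩⟩
  · intro x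
    have h := integral_add_compl (measurableSet_Ioi (a := (0:ℝ))) (int_ex hF x)
    rw [compl_Ioi] at h
    unfold Pp Pm
    rw [h]
    exact inversion hF x
  · refine ⟨(Ioi (0:ℝ)).indicator (𝓕 F), (intF hF).indicator measurableSet_Ioi, ?_, ?_, ?_⟩
    · intro ξ hξ
      exact indicator_of_notMem (by simp only [mem_Ioi, not_lt]; exact hξ.le) _
    · rw [part_norm F measurableSet_Ioi]
      exact le_rfl
    · intro x
      exact part_eq F measurableSet_Ioi x
  · refine ⟨(Iic (0:ℝ)).indicator (𝓕 F), (intF hF).indicator measurableSet_Iic, ?_, ?_, ?_⟩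
    · intro ξ hξ
      exact indicator_of_notMem (by simp only [mem_Iic, not_le]; exact hξ) _
    · rw [part_norm F measurableSet_Iic]
      exact le_rfl
    · intro x
      exact part_eq F measurableSet_Iic x
  · exact part_smooth hF measurableSet_Ioi
  · exact part_smooth hF measurableSet_Iic
  · intro x
    exact part_bd F _ x
  · intro x
    exact part_bd F _ x
  · intro x
    exact part_add hF hG _ x
  · intro x
    exact part_add hF hG _ x
  · exact part_tri hF hG _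
  · exact part_tri hF hG _

end Pool.Agent.Y252.PL.FB
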